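import Pool.Agent.N361.DC.Def

/-!
# Project DC (helper361), part FLOW: the expected number of entries of a random path (helper407)
-/

set_option autoImplicit false

namespace Pool.Agent.N407.DC

open Finset Pool.Agent.N361.DC

theorem bet_one (a : ℕ) : ((a + 1 : ℕ) : ℚ) * bet a 1 = 1 := by
  unfold bet
  rw [Nat.sub_self, Nat.factorial_zero, mul_one, Nat.factorial_succ]
  push_cast
  have h1 : (a.factorial : ℚ) ≠ 0 := by exact_mod_cast a.factorial_ne_zero
  have h2 : (a : ℚ) + 1 ≠ 0 := by positivity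
  field_simp

theorem bet_succ (a c : ℕ) (hc : 1 ≤ c) :
    ((a + (c + 1) : ℕ) : ℚ) * bet a (c + 1) = (c : ℚ) * bet a c := by
  unfold bet
  obtain ⟨b, rfl⟩ : ∃ b, c = b + 1 := ⟨c - 1, by omega⟩
  rw [Nat.add_sub_cancel, Nat.add_sub_cancel, show a + (b + 1 + 1) = (a + (b + 1)) + 1 by ring,
    Nat.factorial_succ (a + (b + 1)), Nat.factorial_succ b]
  push_cast
  have h1 : ((a + (b + 1)).factorial : ℚ) ≠ 0 := by
    exact_mod_cast (a + (b + 1)).factorial_ne_zero
  have h2 : (a : ℚ) + (b + 1) + 1 ≠ 0 := by positivity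
  field_simp

/-- the indicator -/
def e (f : Finset ℕ → Prop) [DecidablePred f] (Z : Finset ℕ) (j : ℕ) : ℚ :=
  if ¬ f Z ∧ f (insert j Z) then 1 else 0

theorem e_nn (f : Finset ℕ → Prop) [DecidablePred f] (Z : Finset ℕ) (j : ℕ) : 0 ≤ e f Z j := by
  unfold e
  split_ifs <;> norm_num

/-- the sum -/
def TT (f : Finset ℕ → Prop) [DecidablePred f] (X : Finset ℕ) : ℚ :=
  ∑ Z ∈ X.powerset, ∑ j ∈ X \ Z, e f Z j * bet Z.card (X \ Z).card

theorem step (f : Finset ℕ → Prop) [DecidablePred f] (X : Finset ℕ) (hX : f X) :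
    ∑ x ∈ X, (TT f (X.erase x) + if f (X.erase x) then 0 else 1) ≤ (X.card : ℚ) * TT f X := by
  rw [sum_add_distrib]
  -- the first part
  have h1 : ∑ x ∈ X, TT f (X.erase x) = ∑ Z ∈ X.powerset, ∑ j ∈ X \ Z,
      (((X \ Z).card - 1 : ℕ) : ℚ) * (e f Z j * bet Z.card ((X \ Z).card - 1)) := by
    unfold TT
    rw [sum_comm' (s' := fun Z => X \ Z) (t' := X.powerset) (by
      intro x Z
      rw [mem_powerset, mem_powerset, mem_sdiff, subset_erase]
      tauto)]
    refine sum_congr rfl fun Z _ => ?_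
    have h2 : ∀ x ∈ X \ Z, ∑ j ∈ X.erase x \ Z, e f Z j * bet Z.card (X.erase x \ Z).card =
        ∑ j ∈ (X \ Z).erase x, e f Z j * bet Z.card ((X \ Z).card - 1) := by
      intro x hx
      rw [erase_sdiff_comm, card_erase_of_mem hx]
    rw [sum_congr rfl h2, sum_comm' (s' := fun j => (X \ Z).erase j) (t' := X \ Z) (by
      intro x j
      rw [mem_erase, mem_erase]
      constructor
      · rintro ⟨h3, h4, h5⟩
        exact ⟨⟨Ne.symm h4, h3⟩, h5⟩
      · rintro ⟨⟨h3, h4⟩, h5⟩
        exact ⟨h4, Ne.symm h3, h5⟩)]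
    refine sum_congr rfl fun j hj => ?_
    rw [sum_const, card_erase_of_mem hj, nsmul_eq_mul]
  -- the second part
  have h2 : ∑ x ∈ X, (if f (X.erase x) then (0 : ℚ) else 1) ≤ ∑ Z ∈ X.powerset, ∑ j ∈ X \ Z,
      (if (X \ Z).card = 1 then e f Z j else 0) := by
    rw [← sum_comm' (s := X) (t := fun x => (X.erase x).powerset) (by
      intro x Z
      rw [mem_powerset, mem_powerset, mem_sdiff, subset_erase]
      tauto)]
    refine sum_le_sum fun x hx => ?_
    refine le_trans ?_ (single_le_sum (f := fun Z => if (X \ Z).card = 1 then e f Z x else 0)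
      (fun Z _ => ?_) (mem_powerset_self (X.erase x)))
    · have h3 : X \ X.erase x = {x} := by
        rw [sdiff_erase_self hx]
      rw [h3, card_singleton, if_pos rfl]
      unfold e
      rw [insert_erase hx]
      by_cases h4 : f (X.erase x)
      · rw [if_pos h4, if_neg (by tauto)]
      · rw [if_neg h4, if_pos ⟨h4, hX⟩]
    · split_ifs
      · exact e_nn f Z x
      · exact le_rfl
  rw [h1]
  refine le_trans (add_le_add_right h2 _) ?_
  unfold TT
  rw [← sum_add_distrib, mul_sum]
  refine sum_le_sum fun Z hZ => ?_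
  rw [← sum_add_distrib, mul_sum]
  refine sum_le_sum fun j hj => ?_
  rw [mem_powerset] at hZ
  have h3 : Z.card + (X \ Z).card = X.card := by
    rw [add_comm, card_sdiff_add_card_eq_card hZ]
  have h4 : 1 ≤ (X \ Z).card := card_pos.2 ⟨j, hj⟩
  obtain ⟨c, hc⟩ : ∃ c, (X \ Z).card = c + 1 := ⟨(X \ Z).card - 1, by omega⟩
  rw [← h3, hc, Nat.add_sub_cancel]
  rcases Nat.eq_zero_or_pos c with h5 | h5
  · rw [h5, if_pos rfl]
    have h6 := bet_one Z.card
    rw [Nat.cast_zero, zero_mul, zero_add]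
    refine le_of_eq ?_
    calc e f Z j = e f Z j * 1 := by ring
      _ = e f Z j * (((Z.card + 1 : ℕ) : ℚ) * bet Z.card 1) := by rw [h6]
      _ = _ := by simp only [zero_add]; ring
  · rw [if_neg (by omega), add_zero]
    have h6 := bet_succ Z.card c h5
    refine le_of_eq ?_
    calc (c : ℚ) * (e f Z j * bet Z.card c) = e f Z j * ((c : ℚ) * bet Z.card c) := by ring
      _ = e f Z j * (((Z.card + (c + 1) : ℕ) : ℚ) * bet Z.card (c + 1)) := by rw [h6]
      _ = _ := by ring

theorem TT_ge (f : Finset ℕ → Prop) [DecidablePred f] (h0 : ¬ f ∅) : ∀ n : ℕ, ∀ X : Finset ℕ,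
    X.card = n → f X → 1 ≤ TT f X := by
  intro n
  induction n with
  | zero =>
    intro X hX hf
    rw [card_eq_zero] at hX
    rw [hX] at hf
    exact absurd hf h0
  | succ n ih =>
    intro X hX hf
    have h1 := step f X hf
    have h2 : ∑ x ∈ X, (1 : ℚ) ≤ ∑ x ∈ X, (TT f (X.erase x) + if f (X.erase x) then 0 else 1) := by
      refine sum_le_sum fun x hx => ?_
      by_cases h3 : f (X.erase x)
      · rw [if_pos h3, add_zero]
        exact ih _ (by rw [card_erase_of_mem hx, hX]; rfl) h3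
      · rw [if_neg h3]
        have h4 : 0 ≤ TT f (X.erase x) := by
          unfold TT
          refine sum_nonneg fun Z _ => sum_nonneg fun j _ => mul_nonneg (e_nn f Z j) ?_
          unfold bet
          positivity
        linarith
    rw [sum_const, nsmul_eq_mul, mul_one] at h2
    have h3 : (0 : ℚ) < X.card := by rw [hX]; positivity
    have h4 : (X.card : ℚ) * 1 ≤ X.card * TT f X := by linarith
    exact le_of_mul_le_mul_left h4 h3

theorem flow : S_FLOW := by
  intro X f _ h0 hX
  have h1 := TT_ge f h0 X.card X rfl hX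
  refine h1.trans (le_of_eq ?_)
  unfold TT e
  refine sum_congr rfl fun Z _ => sum_congr rfl fun j _ => ?_
  split_ifs
  · rw [one_mul]
  · rw [zero_mul]

end Pool.Agent.N407.DC
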